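import Pool.Agent.GEN.StmtsU

set_option autoImplicit false

/-!
# Squad GEN, block U, row SHJ: the same `h` for all shifts (helper16)
-/

namespace Pool.Agent.GEN.H16

open MvPolynomial Pool.Agent.GEN

theorem shj_move {σ A : Type} [CommRing A] (F : MvPolynomial σ A) (c d : ℤ)
    (θ : Sm σ A → Sm σ A)
    (hθ : ∀ (l : A) (w : MvPolynomial σ A) (p : Sm σ A),
      act l w (θ p) = act (l + (d : A)) w p) (p : Sm σ A) (hp : p ∈ JA F c) :
    θ p ∈ JA F (c + d) := by
  obtain ⟨r, n₀, h⟩ := hp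
  refine ⟨θ r, n₀ + d.natAbs, ?_⟩
  intro n hn
  obtain ⟨n', hn'⟩ : ∃ n' : ℕ, (n' : ℤ) = n + d := ⟨((n : ℤ) + d).toNat, by omega⟩
  have hge : n' ≥ n₀ := by omega
  have hcast : (n : A) + (d : A) = (n' : A) := by
    have h1 : ((n' : ℤ) : A) = ((n : ℤ) + d : ℤ) := by rw [hn']
    rw [Int.cast_natCast, Int.cast_add, Int.cast_natCast] at h1
    exact h1.symm
  have e1 : pw F (c + d) n = pw F c n' := by
    unfold pw
    congr 2
    omega
  have e2 : pw F (c + d + 1) n = pw F (c + 1) n' := by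
    unfold pw
    congr 2
    omega
  rw [hθ, hθ, hcast, e1, e2]
  exact h n' hge

theorem shj (SHS : ShsStmt) : ShjStmt := by
  intro σ A _ F h c hext
  obtain ⟨τ, hτ⟩ := SHS σ A ((c : ℤ) : A)
  have hτs : ∀ (l : A) (w : MvPolynomial σ A) (p : Sm σ A),
      act l w (τ.symm p) = act (l + ((-c : ℤ) : A)) w p := by
    intro l w p
    have h1 := hτ (l + ((-c : ℤ) : A)) w (τ.symm p)
    rw [LinearEquiv.apply_symm_apply] at h1
    rw [h1, Int.cast_neg, neg_add_cancel_right]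
  have hm1 : ∀ p ∈ JA F 0, τ p ∈ JA F c := by
    intro p hp
    have h1 := shj_move F 0 c (fun p => τ p) hτ p hp
    rwa [zero_add] at h1
  have hm2 : ∀ p ∈ JA F c, τ.symm p ∈ JA F 0 := by
    intro p hp
    have h1 := shj_move F c (-c) (fun p => τ.symm p) hτs p hp
    rwa [add_neg_cancel] at h1
  intro K _ φ hφ W _ _ g
  let g₀ : JA F 0 →ₛₗ[φ] W :=
    { toFun := fun j => g ⟨τ j, hm1 j j.2⟩
      map_add' := by
        intro x y
        rw [← map_add]
        congr 1
        apply Subtype.ext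
        show τ ((x + y : JA F 0) : Sm σ A) = τ x + τ y
        rw [Submodule.coe_add, map_add]
      map_smul' := by
        intro a x
        rw [← map_smulₛₗ]
        congr 1
        apply Subtype.ext
        show τ ((a • x : JA F 0) : Sm σ A) = a • τ x
        rw [Submodule.coe_smul, map_smul] }
  obtain ⟨g₀', hg₀'⟩ := hext K φ hφ W g₀
  refine ⟨g₀'.comp (τ.symm : Sm σ A →ₗ[A] Sm σ A), ?_⟩
  intro j
  have h1 := hg₀' ⟨τ.symm j, hm2 j j.2⟩
  show g₀' (τ.symm j) = g j
  have h2 : g₀' (τ.symm (j : Sm σ A)) = g ⟨τ (τ.symm j), hm1 _ (hm2 j j.2)⟩ := h1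
  rw [h2]
  congr 1
  apply Subtype.ext
  exact τ.apply_symm_apply _

end Pool.Agent.GEN.H16
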